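import Pool.Agent.Y122.TQ.Defs

set_option autoImplicit false

/-!
Project TQ: mean square of theta functions (helper93).
-/

namespace Pool.Agent.Y93.TQ

open Filter Topology
open Pool.Agent.H306R2.RZ (js nu gm)
open Pool.Agent.H306R2.RG
open Pool.Agent.Y122.TQ

lemma log_Y {Y : ℕ} (hY : 3 ≤ Y) : 1 ≤ Real.log Y := by
  rw [Real.le_log_iff_exp_le (by positivity)]
  have h1 : (3 : ℝ) ≤ Y := by exact_mod_cast hY
  linarith [Real.exp_one_lt_d9]

lemma log_8 {Y : ℕ} (hY : 3 ≤ Y) : Real.log (8 * (Y : ℝ)) ≤ 4 * Real.log Y := by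
  have h1 := log_Y hY
  have hY0 : (Y : ℝ) ≠ 0 := by
    have : (3 : ℝ) ≤ Y := by exact_mod_cast hY
    positivity
  rw [Real.log_mul (by norm_num) hY0, show (8 : ℝ) = 2 ^ 3 by norm_num, Real.log_pow]
  have h2 := Real.log_two_lt_d9
  push_cast
  linarith

lemma exp_two : Real.exp 2 ≤ 8 := by
  have h1 : Real.exp 2 = Real.exp 1 ^ 2 := by
    rw [← Real.exp_nat_mul]
    norm_num
  rw [h1]
  have h2 := Real.exp_one_lt_d9
  have h3 := Real.exp_pos 1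
  nlinarith

lemma rpow_le_exp {x q : ℝ} (hx : 0 ≤ x) (k : ℕ) (hq0 : 0 ≤ q) (hq : q ≤ k) :
    x ^ q ≤ Real.exp (k * x) := by
  calc x ^ q ≤ (1 + x) ^ q := Real.rpow_le_rpow hx (by linarith) hq0
    _ ≤ (1 + x) ^ (k : ℝ) := Real.rpow_le_rpow_of_exponent_le (by linarith) hq
    _ = (1 + x) ^ k := Real.rpow_natCast _ _
    _ ≤ Real.exp x ^ k := pow_le_pow_left₀ (by linarith) (by linarith [Real.add_one_le_exp x]) k
    _ = Real.exp (k * x) := by rw [← Real.exp_nat_mul]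

/-- bound for the terms of the diagonal -/
lemma pw1 {a : ℕ} (ha : a ≤ 1) {Y : ℕ} (hY : 3 ≤ Y) {v : ℝ} (hv : 1 / (8 * (Y : ℝ)) ≤ v) {l : ℕ}
    (hl : 1 ≤ l) :
    ((l : ℝ) ^ a) ^ 2 * Real.exp (-(2 * Real.pi * (l : ℝ) ^ 2 * v)) ≤
      8 * (v ^ (-((a : ℝ) + 1 / 2)) * Real.exp (-v)) * (l : ℝ) ^ (-(1 + 1 / Real.log Y)) := by
  have hL := log_Y hY
  have hY3 : (3 : ℝ) ≤ Y := by exact_mod_cast hY
  have hv0 : 0 < v := lt_of_lt_of_le (by positivity) hv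
  have hl1 : (1 : ℝ) ≤ l := by exact_mod_cast hl
  have hl0 : (0 : ℝ) < l := by linarith
  have ha0 : (0 : ℝ) ≤ a := Nat.cast_nonneg a
  have ha1 : (a : ℝ) ≤ 1 := by exact_mod_cast ha
  set κ : ℝ := 1 / Real.log Y with hκ
  have hκ0 : 0 < κ := by positivity
  have hκ1 : κ ≤ 1 := by
    rw [hκ, div_le_one (by linarith)]
    exact hL
  set x : ℝ := (l : ℝ) ^ 2 * v with hx
  have hx0 : 0 < x := by positivity
  have hxv : v ≤ x := by
    rw [hx]
    have : (1 : ℝ) ≤ (l : ℝ) ^ 2 := one_le_pow₀ hl1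
    nlinarith
  have hlx : (l : ℝ) ^ 2 = x * v⁻¹ := by
    rw [hx, mul_assoc, mul_inv_cancel₀ hv0.ne', mul_one]
  have e1 : ((l : ℝ) ^ a) ^ 2 = ((l : ℝ) ^ 2) ^ ((a : ℝ) + 1 / 2 + κ / 2) * (l : ℝ) ^ (-(1 + κ)) := by
    rw [← pow_mul, ← Real.rpow_natCast (l : ℝ) 2, ← Real.rpow_mul hl0.le, ← Real.rpow_add hl0,
      ← Real.rpow_natCast]
    congr 1
    push_cast
    ring
  have e2 : ((l : ℝ) ^ 2) ^ ((a : ℝ) + 1 / 2 + κ / 2) =
      x ^ ((a : ℝ) + 1 / 2 + κ / 2) * (v ^ (-((a : ℝ) + 1 / 2)) * (v⁻¹) ^ (κ / 2)) := by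
    rw [hlx, Real.mul_rpow hx0.le (inv_nonneg.2 hv0.le),
      Real.rpow_add (inv_pos.2 hv0) ((a : ℝ) + 1 / 2) (κ / 2), Real.inv_rpow hv0.le ((a : ℝ) + 1 / 2),
      ← Real.rpow_neg hv0.le]
  have b1 : x ^ ((a : ℝ) + 1 / 2 + κ / 2) ≤ Real.exp (2 * x) := by
    have := rpow_le_exp hx0.le 2 (q := (a : ℝ) + 1 / 2 + κ / 2) (by positivity) (by
      push_cast
      linarith)
    exact_mod_cast this
  have b2 : (v⁻¹) ^ (κ / 2) ≤ 8 := by
    have hvY : v⁻¹ ≤ 8 * (Y : ℝ) := by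
      rw [inv_le_comm₀ hv0 (by positivity), ← one_div]
      exact hv
    calc (v⁻¹) ^ (κ / 2) ≤ (8 * (Y : ℝ)) ^ (κ / 2) :=
          Real.rpow_le_rpow (inv_nonneg.2 hv0.le) hvY (by positivity)
      _ = Real.exp (Real.log (8 * (Y : ℝ)) * (κ / 2)) := Real.rpow_def_of_pos (by positivity) _
      _ ≤ Real.exp 2 := by
          apply Real.exp_le_exp.2
          have h1 := log_8 hY
          have h2 : Real.log Y * κ = 1 := by
            rw [hκ]
            field_simp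
          have h3 : Real.log (8 * (Y : ℝ)) * κ ≤ (4 * Real.log Y) * κ :=
            mul_le_mul_of_nonneg_right h1 hκ0.le
          nlinarith
      _ ≤ 8 := exp_two
  have b3 : Real.exp (2 * x) * Real.exp (-(2 * Real.pi * (l : ℝ) ^ 2 * v)) ≤ Real.exp (-v) := by
    rw [← Real.exp_add]
    apply Real.exp_le_exp.2
    have h1 : 2 * Real.pi * (l : ℝ) ^ 2 * v = 2 * Real.pi * x := by rw [hx]; ring
    have h2 := Real.pi_gt_three
    rw [h1]
    nlinarith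
  have hvp : 0 < v ^ (-((a : ℝ) + 1 / 2)) := Real.rpow_pos_of_pos hv0 _
  have hlp : 0 < (l : ℝ) ^ (-(1 + κ)) := Real.rpow_pos_of_pos hl0 _
  rw [e1, e2]
  calc x ^ ((a : ℝ) + 1 / 2 + κ / 2) * (v ^ (-((a : ℝ) + 1 / 2)) * (v⁻¹) ^ (κ / 2)) *
        (l : ℝ) ^ (-(1 + κ)) * Real.exp (-(2 * Real.pi * (l : ℝ) ^ 2 * v))
      ≤ Real.exp (2 * x) * (v ^ (-((a : ℝ) + 1 / 2)) * 8) *
        (l : ℝ) ^ (-(1 + κ)) * Real.exp (-(2 * Real.pi * (l : ℝ) ^ 2 * v)) := by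
        gcongr
    _ = 8 * v ^ (-((a : ℝ) + 1 / 2)) * (l : ℝ) ^ (-(1 + κ)) *
        (Real.exp (2 * x) * Real.exp (-(2 * Real.pi * (l : ℝ) ^ 2 * v))) := by ring
    _ ≤ 8 * v ^ (-((a : ℝ) + 1 / 2)) * (l : ℝ) ^ (-(1 + κ)) * Real.exp (-v) := by
        gcongr
    _ = _ := by ring

/-- bound for the other terms -/
lemma pw2 {a : ℕ} (ha : a ≤ 1) {Y : ℕ} (hY : 3 ≤ Y) {v : ℝ} (hv : 1 / (8 * (Y : ℝ)) ≤ v) {n : ℕ}
    (hn : 1 ≤ n) :
    (n : ℝ) ^ a * Real.exp (-(Real.pi * (n : ℝ) ^ 2 * v)) * (Real.sqrt n * (1 + Real.log n)) ≤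
      5 * Real.log Y * (v ^ (-((a : ℝ) + 1 / 2) / 2) * Real.exp (-(v / 2))) *
        Real.exp (-((n : ℝ) ^ 2 * (v / 2))) := by
  have hL := log_Y hY
  have hY3 : (3 : ℝ) ≤ Y := by exact_mod_cast hY
  have hv0 : 0 < v := lt_of_lt_of_le (by positivity) hv
  have hn1 : (1 : ℝ) ≤ n := by exact_mod_cast hn
  have hn0 : (0 : ℝ) < n := by linarith
  have ha0 : (0 : ℝ) ≤ a := Nat.cast_nonneg a
  have ha1 : (a : ℝ) ≤ 1 := by exact_mod_cast ha
  set x : ℝ := (n : ℝ) ^ 2 * v with hx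
  have hx0 : 0 < x := by positivity
  have hxv : v ≤ x := by
    rw [hx]
    have : (1 : ℝ) ≤ (n : ℝ) ^ 2 := one_le_pow₀ hn1
    nlinarith
  have hnx : (n : ℝ) ^ 2 = x * v⁻¹ := by
    rw [hx, mul_assoc, mul_inv_cancel₀ hv0.ne', mul_one]
  have e1 : (n : ℝ) ^ a * Real.sqrt n = ((n : ℝ) ^ 2) ^ (((a : ℝ) + 1 / 2) / 2) := by
    rw [Real.sqrt_eq_rpow, ← Real.rpow_natCast (n : ℝ) a, ← Real.rpow_add hn0,
      ← Real.rpow_natCast (n : ℝ) 2, ← Real.rpow_mul hn0.le]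
    congr 1
    push_cast
    ring
  have e2 : ((n : ℝ) ^ 2) ^ (((a : ℝ) + 1 / 2) / 2) =
      x ^ (((a : ℝ) + 1 / 2) / 2) * v ^ (-((a : ℝ) + 1 / 2) / 2) := by
    rw [hnx, Real.mul_rpow hx0.le (inv_nonneg.2 hv0.le), Real.inv_rpow hv0.le,
      ← Real.rpow_neg hv0.le]
    congr 2
    ring
  have b1 : x ^ (((a : ℝ) + 1 / 2) / 2) ≤ Real.exp x := by
    have := rpow_le_exp hx0.le 1 (q := ((a : ℝ) + 1 / 2) / 2) (by positivity) (by
      push_cast
      linarith)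
    rw [Nat.cast_one, one_mul] at this
    exact this
  have b2 : 1 + Real.log n ≤ 5 * Real.log Y * Real.exp x := by
    have h1 : 2 * Real.log n = Real.log x + Real.log v⁻¹ := by
      rw [← Real.log_mul hx0.ne' (inv_ne_zero hv0.ne'), ← hnx, Real.log_pow]
      push_cast
      ring
    have h2 : Real.log v⁻¹ ≤ Real.log (8 * (Y : ℝ)) := by
      apply Real.log_le_log (inv_pos.2 hv0)
      rw [inv_le_comm₀ hv0 (by positivity), ← one_div]
      exact hv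
    have h3 := log_8 hY
    have h4 := Real.log_le_sub_one_of_pos hx0
    have h5 := Real.add_one_le_exp x
    have h6 : 5 * Real.log Y * (x + 1) ≤ 5 * Real.log Y * Real.exp x :=
      mul_le_mul_of_nonneg_left h5 (by positivity)
    nlinarith
  have b3 : Real.exp x * Real.exp x * Real.exp (-(Real.pi * (n : ℝ) ^ 2 * v)) ≤
      Real.exp (-(v / 2)) * Real.exp (-((n : ℝ) ^ 2 * (v / 2))) := by
    rw [← Real.exp_add, ← Real.exp_add, ← Real.exp_add]
    apply Real.exp_le_exp.2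
    have h1 : Real.pi * (n : ℝ) ^ 2 * v = Real.pi * x := by rw [hx]; ring
    have h2 : (n : ℝ) ^ 2 * (v / 2) = x / 2 := by rw [hx]; ring
    have h3 := Real.pi_gt_three
    rw [h1, h2]
    nlinarith
  have hvp : 0 < v ^ (-((a : ℝ) + 1 / 2) / 2) := Real.rpow_pos_of_pos hv0 _
  have hlog : 0 ≤ 1 + Real.log n := by
    have := Real.log_nonneg hn1
    linarith
  calc (n : ℝ) ^ a * Real.exp (-(Real.pi * (n : ℝ) ^ 2 * v)) * (Real.sqrt n * (1 + Real.log n))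
      = (n : ℝ) ^ a * Real.sqrt n * (1 + Real.log n) *
        Real.exp (-(Real.pi * (n : ℝ) ^ 2 * v)) := by ring
    _ = x ^ (((a : ℝ) + 1 / 2) / 2) * v ^ (-((a : ℝ) + 1 / 2) / 2) * (1 + Real.log n) *
        Real.exp (-(Real.pi * (n : ℝ) ^ 2 * v)) := by rw [e1, e2]
    _ ≤ Real.exp x * v ^ (-((a : ℝ) + 1 / 2) / 2) * (5 * Real.log Y * Real.exp x) *
        Real.exp (-(Real.pi * (n : ℝ) ^ 2 * v)) := by
        gcongr
    _ = 5 * Real.log Y * v ^ (-((a : ℝ) + 1 / 2) / 2) *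
        (Real.exp x * Real.exp x * Real.exp (-(Real.pi * (n : ℝ) ^ 2 * v))) := by ring
    _ ≤ 5 * Real.log Y * v ^ (-((a : ℝ) + 1 / 2) / 2) *
        (Real.exp (-(v / 2)) * Real.exp (-((n : ℝ) ^ 2 * (v / 2)))) := by
        gcongr
    _ = _ := by ring

/-- geometric series -/
lemma geom_bd {r : ℝ} (hr0 : 0 ≤ r) (hr : r < 1) (N : ℕ) :
    ∑ n ∈ Finset.Icc 1 N, r ^ n ≤ r / (1 - r) := by
  have h1 : ∀ N : ℕ, (∑ n ∈ Finset.Icc 1 N, r ^ n) * (1 - r) = r - r ^ (N + 1) := by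
    intro N
    induction N with
    | zero => simp
    | succ N ih =>
      rw [Finset.sum_Icc_succ_top (by omega), add_mul, ih]
      ring
  rw [le_div_iff₀ (by linarith), h1]
  have := pow_nonneg hr0 (N + 1)
  linarith

/-- sums of Gaussians -/
lemma gauss_bd {u : ℝ} (hu : 0 < u) (N : ℕ) :
    (∑ n ∈ Finset.Icc 1 N, Real.exp (-((n : ℝ) ^ 2 * u))) ^ 2 ≤ 2 / u := by
  set w : ℝ := Real.sqrt u with hw
  have hw0 : 0 < w := Real.sqrt_pos.2 hu
  have hwu : w ^ 2 = u := Real.sq_sqrt hu.le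
  have h1 : ∀ n ∈ Finset.Icc 1 N, Real.exp (-((n : ℝ) ^ 2 * u)) ≤
      Real.exp 1 * Real.exp (-(2 * w)) ^ n := by
    intro n _
    rw [← Real.exp_nat_mul, ← Real.exp_add]
    apply Real.exp_le_exp.2
    have h2 := sq_nonneg ((n : ℝ) * w - 1)
    have h3 : ((n : ℝ) * w) ^ 2 = (n : ℝ) ^ 2 * u := by rw [mul_pow, hwu]
    nlinarith
  have hr1 : Real.exp (-(2 * w)) < 1 := by
    rw [Real.exp_lt_one_iff]
    linarith
  have h2 : ∑ n ∈ Finset.Icc 1 N, Real.exp (-((n : ℝ) ^ 2 * u)) ≤ Real.exp 1 * (1 / (2 * w)) := by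
    refine (Finset.sum_le_sum h1).trans ?_
    rw [← Finset.mul_sum]
    refine mul_le_mul_of_nonneg_left ?_ (Real.exp_pos 1).le
    refine (geom_bd (Real.exp_pos _).le hr1 N).trans ?_
    rw [div_le_div_iff₀ (by linarith) (by linarith), one_mul]
    have h3 := Real.add_one_le_exp (2 * w)
    have h4 : Real.exp (-(2 * w)) * Real.exp (2 * w) = 1 := by
      rw [← Real.exp_add, neg_add_cancel, Real.exp_zero]
    have h5 := Real.exp_pos (-(2 * w))
    nlinarith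
  have h0 : 0 ≤ ∑ n ∈ Finset.Icc 1 N, Real.exp (-((n : ℝ) ^ 2 * u)) :=
    Finset.sum_nonneg fun n _ => (Real.exp_pos _).le
  calc (∑ n ∈ Finset.Icc 1 N, Real.exp (-((n : ℝ) ^ 2 * u))) ^ 2
      ≤ (Real.exp 1 * (1 / (2 * w))) ^ 2 := pow_le_pow_left₀ h0 h2 2
    _ = Real.exp 1 ^ 2 / (4 * w ^ 2) := by
        field_simp
        norm_num
    _ = Real.exp 1 ^ 2 / 4 / u := by rw [hwu]; field_simp
    _ ≤ 2 / u := by
        have h6 := Real.exp_one_lt_d9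
        have h7 := Real.exp_pos 1
        gcongr
        nlinarith

/-- sums of powers -/
lemma zeta_bd {κ : ℝ} (hκ : 0 < κ) (N : ℕ) :
    ∑ n ∈ Finset.Icc 1 N, (n : ℝ) ^ (-(1 + κ)) ≤ 1 + 1 / κ := by
  have key : ∀ N : ℕ, 1 ≤ N → ∑ n ∈ Finset.Icc 1 N, (n : ℝ) ^ (-(1 + κ)) ≤
      1 + 1 / κ - 1 / κ * (N : ℝ) ^ (-κ) := by
    intro N hN
    induction N, hN using Nat.le_induction with
    | base =>
      rw [Finset.Icc_self, Finset.sum_singleton, Nat.cast_one, Real.one_rpow, Real.one_rpow]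
      linarith
    | succ n hn ih =>
      rw [Finset.sum_Icc_succ_top (by omega)]
      have hn0 : (0 : ℝ) < n := by exact_mod_cast hn
      have hn1 : (0 : ℝ) < ((n + 1 : ℕ) : ℝ) := by positivity
      have h1 : ((n + 1 : ℕ) : ℝ) ^ (-(1 + κ)) ≤
          1 / κ * (n : ℝ) ^ (-κ) - 1 / κ * ((n + 1 : ℕ) : ℝ) ^ (-κ) := by
        have h2 : (n : ℝ) ^ (-κ) = ((n + 1 : ℕ) : ℝ) ^ (-κ) *
            Real.exp (-κ * Real.log ((n : ℝ) / ((n + 1 : ℕ) : ℝ))) := by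
          have h3 : (n : ℝ) = ((n + 1 : ℕ) : ℝ) * ((n : ℝ) / ((n + 1 : ℕ) : ℝ)) := by
            field_simp
          conv_lhs => rw [h3]
          rw [Real.mul_rpow hn1.le (by positivity), Real.rpow_def_of_pos (by positivity)
            (-κ) (x := (n : ℝ) / ((n + 1 : ℕ) : ℝ)), mul_comm (Real.log _) (-κ)]
        have h4 : Real.log ((n : ℝ) / ((n + 1 : ℕ) : ℝ)) ≤ -(1 / ((n + 1 : ℕ) : ℝ)) := by
          refine (Real.log_le_sub_one_of_pos (by positivity)).trans (le_of_eq ?_)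
          push_cast
          field_simp
          ring
        have h5 : 1 + κ * (1 / ((n + 1 : ℕ) : ℝ)) ≤
            Real.exp (-κ * Real.log ((n : ℝ) / ((n + 1 : ℕ) : ℝ))) := by
          have h6 := Real.add_one_le_exp (-κ * Real.log ((n : ℝ) / ((n + 1 : ℕ) : ℝ)))
          nlinarith
        have h7 : ((n + 1 : ℕ) : ℝ) ^ (-(1 + κ)) = ((n + 1 : ℕ) : ℝ) ^ (-κ) * (1 / ((n + 1 : ℕ) : ℝ)) := by
          rw [show -(1 + κ) = -κ + -1 by ring, Real.rpow_add hn1, Real.rpow_neg_one, one_div]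
        have h8 : 0 < ((n + 1 : ℕ) : ℝ) ^ (-κ) := Real.rpow_pos_of_pos hn1 _
        rw [h2, h7]
        have h9 : 1 / κ * (((n + 1 : ℕ) : ℝ) ^ (-κ) * (1 + κ * (1 / ((n + 1 : ℕ) : ℝ)))) ≤
            1 / κ * (((n + 1 : ℕ) : ℝ) ^ (-κ) *
              Real.exp (-κ * Real.log ((n : ℝ) / ((n + 1 : ℕ) : ℝ)))) := by
          gcongr
        have h10 : 1 / κ * (((n + 1 : ℕ) : ℝ) ^ (-κ) * (1 + κ * (1 / ((n + 1 : ℕ) : ℝ)))) =
            1 / κ * ((n + 1 : ℕ) : ℝ) ^ (-κ) + ((n + 1 : ℕ) : ℝ) ^ (-κ) * (1 / ((n + 1 : ℕ) : ℝ)) := by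
          field_simp
        linarith
      linarith
  rcases Nat.eq_zero_or_pos N with h | h
  · rw [h, Finset.Icc_eq_empty (by omega), Finset.sum_empty]
    positivity
  · have h1 := key N h
    have h2 : 0 ≤ 1 / κ * (N : ℝ) ^ (-κ) := by positivity
    linarith

/-- sums over the image of a map -/
lemma sum_img {S T : Type*} [DecidableEq S] [Nonempty T] (A : Finset S) (B : Finset T) (g : T → S) (f : S → ℝ)
    (hA : ∀ x ∈ A, ∃ t ∈ B, g t = x) (F : T → ℝ) (hF0 : ∀ t ∈ B, 0 ≤ F t)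
    (hF : ∀ t ∈ B, g t ∈ A → f (g t) ≤ F t) : ∑ x ∈ A, f x ≤ ∑ t ∈ B, F t := by
  classical
  choose! h hh1 hh2 using hA
  have hinj : Set.InjOn h (A : Set S) := by
    intro x hx y hy hxy
    rw [← hh2 x hx, ← hh2 y hy, hxy]
  calc ∑ x ∈ A, f x ≤ ∑ x ∈ A, F (h x) := Finset.sum_le_sum fun x hx => by
        have h1 := hF (h x) (hh1 x hx) (by rw [hh2 x hx]; exact hx)
        rw [hh2 x hx] at h1
        exact h1
    _ = ∑ t ∈ A.image h, F t := (Finset.sum_image hinj).symm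
    _ ≤ ∑ t ∈ B, F t := by
        refine Finset.sum_le_sum_of_subset_of_nonneg ?_ fun t ht _ => hF0 t ht
        intro t ht
        obtain ⟨x, hx, rfl⟩ := Finset.mem_image.1 ht
        exact hh1 x hx

/-- pairs with square product -/
lemma sq_pair {n m : ℕ} (hn : 1 ≤ n) (hm : 1 ≤ m) (h : IsSquare (n * m)) :
    ∃ g a b : ℕ, 1 ≤ g ∧ 1 ≤ a ∧ 1 ≤ b ∧ n = g * a ^ 2 ∧ m = g * b ^ 2 := by
  obtain ⟨l, hl⟩ := h
  have hg : 0 < Nat.gcd n m := Nat.gcd_pos_of_pos_left m hn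
  obtain ⟨n', m', hco, hn', hm'⟩ := Nat.exists_coprime n m
  set g := Nat.gcd n m
  have hn0 : 1 ≤ n' := by
    rcases Nat.eq_zero_or_pos n' with h | h
    · rw [h, zero_mul] at hn'
      omega
    · exact h
  have hm0 : 1 ≤ m' := by
    rcases Nat.eq_zero_or_pos m' with h | h
    · rw [h, zero_mul] at hm'
      omega
    · exact h
  have h1 : (n' * m') * g ^ 2 = l ^ 2 := by
    rw [sq l, ← hl]
    conv_rhs => rw [hn', hm']
    ring
  have h2 : g ∣ l := by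
    rw [← Nat.pow_dvd_pow_iff (two_ne_zero)]
    exact ⟨n' * m', by rw [← h1]; ring⟩
  obtain ⟨k, rfl⟩ := h2
  have h3 : n' * m' = k ^ 2 := by
    have h4 : (n' * m') * g ^ 2 = k ^ 2 * g ^ 2 := by rw [h1]; ring
    exact Nat.eq_of_mul_eq_mul_right (pow_pos hg 2) h4
  obtain ⟨a, ha⟩ := exists_eq_pow_of_mul_eq_pow (Nat.isUnit_iff.2 hco) h3
  obtain ⟨b, hb⟩ := exists_eq_pow_of_mul_eq_pow (Nat.isUnit_iff.2 hco.symm)
    (by rw [mul_comm]; exact h3)
  refine ⟨g, a, b, hg, ?_, ?_, ?_, ?_⟩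
  · rcases Nat.eq_zero_or_pos a with h | h
    · rw [h] at ha
      norm_num at ha
      omega
    · exact h
  · rcases Nat.eq_zero_or_pos b with h | h
    · rw [h] at hb
      norm_num at hb
      omega
    · exact h
  · rw [← ha, mul_comm]
    exact hn'
  · rw [← hb, mul_comm]
    exact hm'

/-- the abstract mean square -/
lemma mean_sq {a : ℕ} (ha : a ≤ 1) {Y : ℕ} (hY : 3 ≤ Y) {v : ℝ} (hv : 1 / (8 * (Y : ℝ)) ≤ v)
    (j : ℕ → ℕ → ℝ) (C : ℝ) (hC : 0 ≤ C) (hj1 : ∀ d n, |j d n| ≤ 1)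
    (hj : ∀ n m : ℕ, 1 ≤ n → 1 ≤ m → ¬ IsSquare (n * m) → |∑ d ∈ Finset.Icc 1 Y, j d n * j d m| ≤
      C * ((Real.sqrt n * (1 + Real.log n)) * (Real.sqrt m * (1 + Real.log m)))) (N : ℕ) :
    ∑ d ∈ Finset.Icc 1 Y, (∑ n ∈ Finset.Icc 1 N,
      j d n * ((n : ℝ) ^ a * Real.exp (-(Real.pi * (n : ℝ) ^ 2 * v)))) ^ 2 ≤
      (64 + 800 * C) * Y * Real.log Y ^ 3 * v ^ (-((a : ℝ) + 1 / 2)) * Real.exp (-v) := by
  classical
  have hL := log_Y hY
  have hY3 : (3 : ℝ) ≤ Y := by exact_mod_cast hY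
  have hv0 : 0 < v := lt_of_lt_of_le (by positivity) hv
  set c : ℕ → ℝ := fun n => (n : ℝ) ^ a * Real.exp (-(Real.pi * (n : ℝ) ^ 2 * v)) with hc
  have hc0 : ∀ n, 0 ≤ c n := fun n => by positivity
  set s : ℕ → ℝ := fun n => Real.sqrt n * (1 + Real.log n) with hs
  have hs0 : ∀ n, 0 ≤ s n := by
    intro n
    have := Real.log_natCast_nonneg n
    positivity
  set P : ℝ := v ^ (-((a : ℝ) + 1 / 2)) * Real.exp (-v) with hP
  have hP0 : 0 < P := mul_pos (Real.rpow_pos_of_pos hv0 _) (Real.exp_pos _)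
  -- expansion
  have h1 : ∑ d ∈ Finset.Icc 1 Y, (∑ n ∈ Finset.Icc 1 N, j d n * c n) ^ 2 =
      ∑ z ∈ Finset.Icc 1 N ×ˢ Finset.Icc 1 N,
        c z.1 * c z.2 * ∑ d ∈ Finset.Icc 1 Y, j d z.1 * j d z.2 := by
    have h2 : ∀ d, (∑ n ∈ Finset.Icc 1 N, j d n * c n) ^ 2 =
        ∑ z ∈ Finset.Icc 1 N ×ˢ Finset.Icc 1 N, c z.1 * c z.2 * (j d z.1 * j d z.2) := by
      intro d
      rw [sq, Finset.sum_mul_sum, ← Finset.sum_product']
      refine Finset.sum_congr rfl fun z _ => ?_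
      ring
    rw [Finset.sum_congr rfl fun d _ => h2 d, Finset.sum_comm]
    exact Finset.sum_congr rfl fun z _ => (Finset.mul_sum _ _ _).symm
  have h2 : ∀ z ∈ Finset.Icc 1 N ×ˢ Finset.Icc 1 N,
      c z.1 * c z.2 * ∑ d ∈ Finset.Icc 1 Y, j d z.1 * j d z.2 ≤
        (if IsSquare (z.1 * z.2) then (Y : ℝ) * (c z.1 * c z.2) else 0) +
          C * ((c z.1 * s z.1) * (c z.2 * s z.2)) := by
    intro z hz
    rw [Finset.mem_product, Finset.mem_Icc, Finset.mem_Icc] at hz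
    have hcc : 0 ≤ c z.1 * c z.2 := mul_nonneg (hc0 _) (hc0 _)
    have hss : 0 ≤ C * ((c z.1 * s z.1) * (c z.2 * s z.2)) :=
      mul_nonneg hC (mul_nonneg (mul_nonneg (hc0 _) (hs0 _)) (mul_nonneg (hc0 _) (hs0 _)))
    split_ifs with hsq
    · have h3 : ∑ d ∈ Finset.Icc 1 Y, j d z.1 * j d z.2 ≤ Y := by
        calc ∑ d ∈ Finset.Icc 1 Y, j d z.1 * j d z.2 ≤ ∑ _d ∈ Finset.Icc 1 Y, (1 : ℝ) := by
              refine Finset.sum_le_sum fun d _ => ?_
              refine (le_abs_self _).trans ?_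
              rw [abs_mul]
              exact mul_le_one₀ (hj1 _ _) (abs_nonneg _) (hj1 _ _)
          _ = Y := by
              rw [Finset.sum_const, Nat.card_Icc, nsmul_eq_mul, mul_one, Nat.add_sub_cancel]
      have h4 := mul_le_mul_of_nonneg_left h3 hcc
      linarith
    · have h3 := (le_abs_self _).trans (hj z.1 z.2 hz.1.1 hz.2.1 hsq)
      have h4 := mul_le_mul_of_nonneg_left h3 hcc
      rw [zero_add]
      refine h4.trans (le_of_eq ?_)
      ring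
  rw [h1]
  refine (Finset.sum_le_sum h2).trans ?_
  rw [Finset.sum_add_distrib, ← Finset.mul_sum, ← Finset.sum_filter, ← Finset.mul_sum]
  -- the second part
  have h3 : ∑ z ∈ Finset.Icc 1 N ×ˢ Finset.Icc 1 N, (c z.1 * s z.1) * (c z.2 * s z.2) =
      (∑ n ∈ Finset.Icc 1 N, c n * s n) ^ 2 := by
    rw [sq, Finset.sum_mul_sum, ← Finset.sum_product']
  have h4 : (∑ n ∈ Finset.Icc 1 N, c n * s n) ^ 2 ≤ 800 * Y * Real.log Y ^ 2 * P := by
    have h5 : ∑ n ∈ Finset.Icc 1 N, c n * s n ≤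
        5 * Real.log Y * (v ^ (-((a : ℝ) + 1 / 2) / 2) * Real.exp (-(v / 2))) *
          ∑ n ∈ Finset.Icc 1 N, Real.exp (-((n : ℝ) ^ 2 * (v / 2))) := by
      rw [Finset.mul_sum]
      exact Finset.sum_le_sum fun n hn => pw2 ha hY hv (Finset.mem_Icc.1 hn).1
    have h6 : 0 ≤ ∑ n ∈ Finset.Icc 1 N, c n * s n :=
      Finset.sum_nonneg fun n _ => mul_nonneg (hc0 n) (hs0 n)
    have h7 := gauss_bd (half_pos hv0) N
    have h8 : (v ^ (-((a : ℝ) + 1 / 2) / 2) * Real.exp (-(v / 2))) ^ 2 = P := by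
      rw [mul_pow, ← Real.rpow_natCast (v ^ _) 2, ← Real.rpow_mul hv0.le, ← Real.exp_nat_mul, hP]
      congr 2
      · push_cast
        ring
      · push_cast
        ring
    have h9 : 2 / (v / 2) ≤ 32 * (Y : ℝ) := by
      rw [div_le_iff₀ (half_pos hv0)]
      rw [div_le_iff₀ (by positivity)] at hv
      nlinarith
    calc (∑ n ∈ Finset.Icc 1 N, c n * s n) ^ 2
        ≤ (5 * Real.log Y * (v ^ (-((a : ℝ) + 1 / 2) / 2) * Real.exp (-(v / 2))) *
          ∑ n ∈ Finset.Icc 1 N, Real.exp (-((n : ℝ) ^ 2 * (v / 2)))) ^ 2 :=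
          pow_le_pow_left₀ h6 h5 2
      _ = 25 * Real.log Y ^ 2 * P *
          (∑ n ∈ Finset.Icc 1 N, Real.exp (-((n : ℝ) ^ 2 * (v / 2)))) ^ 2 := by
          rw [← h8]
          ring
      _ ≤ 25 * Real.log Y ^ 2 * P * (32 * Y) :=
          mul_le_mul_of_nonneg_left (h7.trans h9) (by positivity)
      _ = _ := by ring
  -- the first part
  set κ : ℝ := 1 / Real.log Y with hκ
  have hκ0 : 0 < κ := by positivity
  have h5 : ∑ z ∈ (Finset.Icc 1 N ×ˢ Finset.Icc 1 N).filter (fun z => IsSquare (z.1 * z.2)),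
      c z.1 * c z.2 ≤ ∑ t ∈ Finset.Icc 1 N ×ˢ (Finset.Icc 1 N ×ˢ Finset.Icc 1 N),
        8 * P * ((t.1 : ℝ) ^ (-(1 + κ)) * ((t.2.1 : ℝ) ^ (-(1 + κ)) * (t.2.2 : ℝ) ^ (-(1 + κ)))) := by
    refine sum_img _ _ (fun t => (t.1 * t.2.1 ^ 2, t.1 * t.2.2 ^ 2)) _
      ?_ _ (fun t _ => by positivity) ?_
    · intro z hz
      rw [Finset.mem_filter, Finset.mem_product, Finset.mem_Icc, Finset.mem_Icc] at hz
      obtain ⟨⟨⟨hn1, hn2⟩, hm1, hm2⟩, hsq⟩ := hz
      obtain ⟨g, x, y, hg, hx, hy, e1, e2⟩ := sq_pair hn1 hm1 hsq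
      refine ⟨(g, x, y), ?_, ?_⟩
      · have hx2 : x ≤ x ^ 2 := Nat.le_self_pow two_ne_zero x
        have hy2 : y ≤ y ^ 2 := Nat.le_self_pow two_ne_zero y
        have hgx : g * 1 ≤ g * x ^ 2 := Nat.mul_le_mul_left g (Nat.one_le_pow _ _ hx)
        have hxx : 1 * x ^ 2 ≤ g * x ^ 2 := Nat.mul_le_mul_right _ hg
        have hyy : 1 * y ^ 2 ≤ g * y ^ 2 := Nat.mul_le_mul_right _ hg
        simp only [Finset.mem_product, Finset.mem_Icc]
        omega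
      · exact Prod.ext e1.symm e2.symm
    · rintro ⟨g, x, y⟩ ht hA
      simp only [Finset.mem_product, Finset.mem_Icc] at ht
      have hl : 1 ≤ g * x * y := Nat.mul_pos (Nat.mul_pos ht.1.1 ht.2.1.1) ht.2.2.1
      have h6 := pw1 ha hY hv hl
      have h7 : ((g * x * y : ℕ) : ℝ) ^ (-(1 + κ)) =
          (g : ℝ) ^ (-(1 + κ)) * ((x : ℝ) ^ (-(1 + κ)) * (y : ℝ) ^ (-(1 + κ))) := by
        push_cast
        rw [Real.mul_rpow (by positivity) (by positivity),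
          Real.mul_rpow (by positivity) (by positivity), mul_assoc]
      rw [← hκ, ← hP, h7] at h6
      refine le_trans ?_ h6
      show c (g * x ^ 2) * c (g * y ^ 2) ≤ _
      rw [hc]
      simp only
      push_cast
      have h8 : ((g : ℝ) * (x : ℝ) ^ 2) ^ a * ((g : ℝ) * (y : ℝ) ^ 2) ^ a =
          (((g : ℝ) * x * y) ^ a) ^ 2 := by
        rw [← mul_pow, ← pow_mul, mul_comm a 2, pow_mul]
        congr 1
        ring
      have h9 : Real.exp (-(Real.pi * ((g : ℝ) * (x : ℝ) ^ 2) ^ 2 * v)) *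
          Real.exp (-(Real.pi * ((g : ℝ) * (y : ℝ) ^ 2) ^ 2 * v)) ≤
          Real.exp (-(2 * Real.pi * ((g : ℝ) * x * y) ^ 2 * v)) := by
        rw [← Real.exp_add]
        apply Real.exp_le_exp.2
        have h10 : 0 ≤ Real.pi * v * ((g : ℝ) * (x : ℝ) ^ 2 - (g : ℝ) * (y : ℝ) ^ 2) ^ 2 := by
          positivity
        nlinarith
      calc ((g : ℝ) * (x : ℝ) ^ 2) ^ a * Real.exp (-(Real.pi * ((g : ℝ) * (x : ℝ) ^ 2) ^ 2 * v)) *
            (((g : ℝ) * (y : ℝ) ^ 2) ^ a * Real.exp (-(Real.pi * ((g : ℝ) * (y : ℝ) ^ 2) ^ 2 * v)))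
          = (((g : ℝ) * (x : ℝ) ^ 2) ^ a * ((g : ℝ) * (y : ℝ) ^ 2) ^ a) *
            (Real.exp (-(Real.pi * ((g : ℝ) * (x : ℝ) ^ 2) ^ 2 * v)) *
              Real.exp (-(Real.pi * ((g : ℝ) * (y : ℝ) ^ 2) ^ 2 * v))) := by ring
        _ ≤ _ := by
            rw [h8]
            exact mul_le_mul_of_nonneg_left h9 (by positivity)
  have h6 : ∑ t ∈ Finset.Icc 1 N ×ˢ (Finset.Icc 1 N ×ˢ Finset.Icc 1 N),
        8 * P * ((t.1 : ℝ) ^ (-(1 + κ)) * ((t.2.1 : ℝ) ^ (-(1 + κ)) * (t.2.2 : ℝ) ^ (-(1 + κ)))) =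
      8 * P * (∑ n ∈ Finset.Icc 1 N, (n : ℝ) ^ (-(1 + κ))) ^ 3 := by
    rw [← Finset.mul_sum, Finset.sum_product]
    congr 1
    have h7 : ∀ g : ℕ, ∑ t ∈ Finset.Icc 1 N ×ˢ Finset.Icc 1 N,
        (g : ℝ) ^ (-(1 + κ)) * ((t.1 : ℝ) ^ (-(1 + κ)) * (t.2 : ℝ) ^ (-(1 + κ))) =
        (g : ℝ) ^ (-(1 + κ)) * (∑ n ∈ Finset.Icc 1 N, (n : ℝ) ^ (-(1 + κ))) ^ 2 := by
      intro g
      rw [← Finset.mul_sum, sq, Finset.sum_mul_sum, ← Finset.sum_product']
    rw [Finset.sum_congr rfl fun g _ => h7 g, ← Finset.sum_mul]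
    ring
  have h7 : (∑ n ∈ Finset.Icc 1 N, (n : ℝ) ^ (-(1 + κ))) ^ 3 ≤ 8 * Real.log Y ^ 3 := by
    have h8 := zeta_bd hκ0 N
    have h9 : 1 + 1 / κ ≤ 2 * Real.log Y := by
      rw [hκ, one_div_one_div]
      linarith
    have h10 : 0 ≤ ∑ n ∈ Finset.Icc 1 N, (n : ℝ) ^ (-(1 + κ)) :=
      Finset.sum_nonneg fun n _ => by positivity
    calc _ ≤ (2 * Real.log Y) ^ 3 := pow_le_pow_left₀ h10 (h8.trans h9) 3
      _ = _ := by ring
  rw [h6] at h5
  rw [h3]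
  have h8 : Real.log Y ^ 2 ≤ Real.log Y ^ 3 := pow_le_pow_right₀ hL (by norm_num)
  have e1 : (Y : ℝ) * ∑ z ∈ (Finset.Icc 1 N ×ˢ Finset.Icc 1 N).filter
      (fun z => IsSquare (z.1 * z.2)), c z.1 * c z.2 ≤ Y * (8 * P * (8 * Real.log Y ^ 3)) := by
    refine mul_le_mul_of_nonneg_left (h5.trans ?_) (by positivity)
    exact mul_le_mul_of_nonneg_left h7 (by positivity)
  have e2 : C * (∑ n ∈ Finset.Icc 1 N, c n * s n) ^ 2 ≤ C * (800 * Y * Real.log Y ^ 3 * P) := by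
    refine mul_le_mul_of_nonneg_left (h4.trans ?_) hC
    gcongr
  calc _ ≤ Y * (8 * P * (8 * Real.log Y ^ 3)) + C * (800 * Y * Real.log Y ^ 3 * P) :=
        add_le_add e1 e2
    _ = _ := by
        rw [hP]
        ring

lemma js_abs (k : ℤ) (n : ℕ) : |js k n| ≤ 1 := by
  unfold js
  rcases jacobiSym.trichotomy k n with h | h | h <;> rw [h] <;> norm_num

lemma jo_abs (φ : FD) (d n : ℕ) : |jo φ d n| ≤ 1 := by
  unfold jo
  split_ifs
  · exact js_abs _ _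
  · rw [abs_zero]
    exact zero_le_one

lemma a_le (φ : FD) (h : Fam φ) : φ.a ≤ 1 := by
  obtain ⟨ε, hε, h⟩ := h
  have h1 : (if ε = 1 then 0 else 1) ≤ 1 := by split_ifs <;> norm_num
  rcases h with h | h | h | h <;> rw [h] <;> exact h1

lemma gauss_sum {u : ℝ} (hu : 0 < u) :
    Summable fun n : ℕ => Real.exp (-(((n : ℝ) + 1) ^ 2 * u)) := by
  set w : ℝ := Real.sqrt u with hw
  have hw0 : 0 < w := Real.sqrt_pos.2 hu
  have hwu : w ^ 2 = u := Real.sq_sqrt hu.le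
  have hr1 : Real.exp (-(2 * w)) < 1 := by
    rw [Real.exp_lt_one_iff]
    linarith
  refine Summable.of_nonneg_of_le (fun n => (Real.exp_pos _).le) (fun n => ?_)
    ((summable_geometric_of_lt_one (Real.exp_pos _).le hr1).mul_left (Real.exp 1))
  rw [← Real.exp_nat_mul, ← Real.exp_add]
  apply Real.exp_le_exp.2
  have h2 := sq_nonneg (((n : ℝ) + 1) * w - 1)
  have h3 : (((n : ℝ) + 1) * w) ^ 2 = ((n : ℝ) + 1) ^ 2 * u := by rw [mul_pow, hwu]
  nlinarith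

/-- mean square of the theta functions -/
theorem TH1 (h : S_PVJ) : S_TH1 := by
  intro φ hφ
  obtain ⟨C, hC, hp⟩ := h
  refine ⟨64 + 800 * C, by positivity, ?_⟩
  intro Y hY v hv
  have ha := a_le φ hφ
  have hY3 : (3 : ℝ) ≤ Y := by exact_mod_cast hY
  have hv0 : 0 < v := lt_of_lt_of_le (by positivity) hv
  have hj : ∀ n m : ℕ, 1 ≤ n → 1 ≤ m → ¬ IsSquare (n * m) →
      |∑ d ∈ Finset.Icc 1 Y, jo φ d n * jo φ d m| ≤
      C * ((Real.sqrt n * (1 + Real.log n)) * (Real.sqrt m * (1 + Real.log m))) := by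
    intro n m hn hm hsq
    have hn1 : (1 : ℝ) ≤ n := by exact_mod_cast hn
    have hm1 : (1 : ℝ) ≤ m := by exact_mod_cast hm
    have hln := Real.log_nonneg hn1
    have hlm := Real.log_nonneg hm1
    have hrhs : 0 ≤ C * ((Real.sqrt n * (1 + Real.log n)) * (Real.sqrt m * (1 + Real.log m))) := by
      positivity
    by_cases hno : Odd n
    · by_cases hmo : Odd m
      · have h1 : ∀ d : ℕ, jo φ d n * jo φ d m = js φ.e n * js φ.e m * js (d : ℤ) (n * m) := by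
          intro d
          haveI : NeZero n := ⟨by omega⟩
          haveI : NeZero m := ⟨by omega⟩
          unfold jo js
          rw [if_pos hno, if_pos hmo, jacobiSym.mul_left, jacobiSym.mul_left,
            jacobiSym.mul_right (d : ℤ) n m]
          push_cast
          ring
        rw [Finset.sum_congr rfl fun d _ => h1 d, ← Finset.mul_sum, abs_mul]
        have h2 : |js φ.e n * js φ.e m| ≤ 1 := by
          rw [abs_mul]
          exact mul_le_one₀ (js_abs _ _) (abs_nonneg _) (js_abs _ _)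
        have h3 := hp (n * m) Y (hno.mul hmo) hsq
        have h4 : Real.sqrt ((n * m : ℕ) : ℝ) = Real.sqrt n * Real.sqrt m := by
          rw [Nat.cast_mul, Real.sqrt_mul (by positivity)]
        have h5 : Real.log ((n * m : ℕ) : ℝ) = Real.log n + Real.log m := by
          rw [Nat.cast_mul, Real.log_mul (by positivity) (by positivity)]
        rw [h4, h5] at h3
        have h6 : 0 ≤ Real.sqrt n * Real.sqrt m := by positivity
        calc |js φ.e n * js φ.e m| * |∑ d ∈ Finset.Icc 1 Y, js (d : ℤ) (n * m)|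
            ≤ 1 * (C * (Real.sqrt n * Real.sqrt m) * (1 + (Real.log n + Real.log m))) :=
              mul_le_mul h2 h3 (abs_nonneg _) zero_le_one
          _ ≤ C * (Real.sqrt n * Real.sqrt m) * ((1 + Real.log n) * (1 + Real.log m)) := by
              rw [one_mul]
              refine mul_le_mul_of_nonneg_left ?_ (by positivity)
              nlinarith [mul_nonneg hln hlm]
          _ = _ := by ring
      · have h1 : ∀ d : ℕ, jo φ d n * jo φ d m = 0 := by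
          intro d
          have : jo φ d m = 0 := if_neg hmo
          rw [this, mul_zero]
        rw [Finset.sum_congr rfl fun d _ => h1 d, Finset.sum_const_zero, abs_zero]
        exact hrhs
    · have h1 : ∀ d : ℕ, jo φ d n * jo φ d m = 0 := by
        intro d
        have : jo φ d n = 0 := if_neg hno
        rw [this, zero_mul]
      rw [Finset.sum_congr rfl fun d _ => h1 d, Finset.sum_const_zero, abs_zero]
      exact hrhs
  have hsum : ∀ d, Summable fun n : ℕ =>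
      jo φ d (n + 1) * ((n : ℝ) + 1) ^ φ.a * Real.exp (-(Real.pi * ((n : ℝ) + 1) ^ 2 * v)) := by
    intro d
    refine Summable.of_norm_bounded
      ((gauss_sum (half_pos hv0)).mul_left (5 * Real.log Y *
        (v ^ (-((φ.a : ℝ) + 1 / 2) / 2) * Real.exp (-(v / 2))))) fun n => ?_
    have h1 := pw2 ha hY hv (Nat.succ_le_succ (Nat.zero_le n))
    push_cast at h1
    have h2 : (1 : ℝ) ≤ Real.sqrt ((n : ℝ) + 1) * (1 + Real.log ((n : ℝ) + 1)) := by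
      have h3 : (1 : ℝ) ≤ (n : ℝ) + 1 := by
        have : (0 : ℝ) ≤ n := Nat.cast_nonneg n
        linarith
      have h4 : 1 ≤ Real.sqrt ((n : ℝ) + 1) := Real.one_le_sqrt.2 h3
      have h5 := Real.log_nonneg h3
      nlinarith
    have h3 : 0 ≤ ((n : ℝ) + 1) ^ φ.a * Real.exp (-(Real.pi * ((n : ℝ) + 1) ^ 2 * v)) := by
      positivity
    rw [Real.norm_eq_abs, mul_assoc, abs_mul, abs_of_nonneg h3]
    calc |jo φ d (n + 1)| * (((n : ℝ) + 1) ^ φ.a * Real.exp (-(Real.pi * ((n : ℝ) + 1) ^ 2 * v)))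
        ≤ 1 * (((n : ℝ) + 1) ^ φ.a * Real.exp (-(Real.pi * ((n : ℝ) + 1) ^ 2 * v))) :=
          mul_le_mul_of_nonneg_right (jo_abs _ _ _) h3
      _ = ((n : ℝ) + 1) ^ φ.a * Real.exp (-(Real.pi * ((n : ℝ) + 1) ^ 2 * v)) * 1 := by ring
      _ ≤ ((n : ℝ) + 1) ^ φ.a * Real.exp (-(Real.pi * ((n : ℝ) + 1) ^ 2 * v)) *
          (Real.sqrt ((n : ℝ) + 1) * (1 + Real.log ((n : ℝ) + 1))) :=
          mul_le_mul_of_nonneg_left h2 h3
      _ ≤ _ := h1
  have hlim : Tendsto (fun N : ℕ => ∑ d ∈ Finset.Icc 1 Y, (∑ n ∈ Finset.range N,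
      jo φ d (n + 1) * ((n : ℝ) + 1) ^ φ.a *
        Real.exp (-(Real.pi * ((n : ℝ) + 1) ^ 2 * v))) ^ 2) atTop
      (𝓝 (∑ d ∈ Finset.Icc 1 Y, vto φ d v ^ 2)) :=
    tendsto_finsetSum _ fun d _ => ((hsum d).hasSum.tendsto_sum_nat).pow 2
  refine le_of_tendsto' hlim fun N => ?_
  have h1 := mean_sq ha hY hv (fun d n => jo φ d n) C hC.le (fun d n => jo_abs φ d n) hj N
  refine le_trans (le_of_eq ?_) h1
  refine Finset.sum_congr rfl fun d _ => ?_
  congr 1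
  rw [Finset.range_eq_Ico]
  have h2 := Finset.sum_Ico_add' (fun n : ℕ => jo φ d n *
    ((n : ℝ) ^ φ.a * Real.exp (-(Real.pi * (n : ℝ) ^ 2 * v)))) 0 N 1
  have h3 : Finset.Ico (0 + 1) (N + 1) = Finset.Icc 1 N := by
    ext n
    rw [Finset.mem_Ico, Finset.mem_Icc]
    omega
  rw [h3] at h2
  rw [← h2]
  refine Finset.sum_congr rfl fun n _ => ?_
  push_cast
  ring

end Pool.Agent.Y93.TQ
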