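import Pool.Agent.Y122.TQ.Defs
import Pool.Agent.H423R2.RGL.CC3
import Pool.Agent.H423R2.RGL.CC4

set_option autoImplicit false

/-!
Project TQ: the approximate functional equation with a cut (helper93).
-/

namespace Pool.Agent.Y93.TQ

open Filter Topology MeasureTheory Set
open Pool.Agent.H306R2.RZ (js nu gm)
open Pool.Agent.H306R2.RG
open Pool.Agent.Y122.TQ

/-- integrability against powers on `(1, ∞)` -/
lemma int_one (θ : ℝ → ℝ) (hc : ContinuousOn θ (Ioi 0)) (C c : ℝ) (hc0 : 0 < c)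
    (hb : ∀ y : ℝ, 1 ≤ y → |θ y| ≤ C * Real.exp (-(c * y))) (p : ℝ) :
    IntegrableOn (fun y => θ y * y ^ p) (Ioi 1) := by
  refine integrable_of_isBigO_exp_neg (b := c / 2) (half_pos hc0) ?_ ?_
  · refine (hc.mono fun y hy => ?_).mul ?_
    · exact lt_of_lt_of_le one_pos (mem_Ici.1 hy)
    · refine ContinuousOn.rpow_const continuousOn_id fun y hy => Or.inl ?_
      exact (lt_of_lt_of_le one_pos (mem_Ici.1 hy)).ne'
  · have h1 : (fun y : ℝ => y ^ p) =O[atTop] fun y => Real.exp (c / 2 * y) :=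
      (isLittleO_rpow_exp_pos_mul_atTop p (half_pos hc0)).isBigO
    have h2 : θ =O[atTop] fun y => Real.exp (-(c * y)) := by
      refine Asymptotics.IsBigO.of_bound C ?_
      filter_upwards [eventually_ge_atTop 1] with y hy
      rw [Real.norm_eq_abs, Real.norm_eq_abs, abs_of_pos (Real.exp_pos _)]
      exact hb y hy
    refine (h2.mul h1).congr_right fun y => ?_
    rw [← Real.exp_add]
    congr 1
    ring

/-- the Mellin transform of a function with a functional equation -/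
lemma core (θ : ℝ → ℝ) (hc : ContinuousOn θ (Ioi 0)) (C c : ℝ) (hc0 : 0 < c)
    (hb : ∀ y : ℝ, 1 ≤ y → |θ y| ≤ C * Real.exp (-(c * y))) (b p p' : ℝ)
    (hfe : ∀ y : ℝ, 0 < y → θ (1 / y) = y ^ b * θ y) (hp : p' = b - p - 2) :
    ∫ y in Ioi (0 : ℝ), θ y * y ^ p =
      (∫ y in Ioi (1 : ℝ), θ y * y ^ p) + ∫ y in Ioi (1 : ℝ), θ y * y ^ p' := by
  have i1 := int_one θ hc C c hc0 hb p
  have i2 := int_one θ hc C c hc0 hb p'
  set F : ℝ → ℝ := fun y => θ y * y ^ p with hF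
  set G : ℝ → ℝ := fun y => θ y * y ^ p' with hG
  set g : ℝ → ℝ := (Iio (1 : ℝ)).indicator F with hg
  have hm1 : MeasurableSet (Ioi (1 : ℝ)) := measurableSet_Ioi
  have key : ∀ x ∈ Ioi (0 : ℝ), (|(-1 : ℝ)| * x ^ ((-1 : ℝ) - 1)) • g (x ^ (-1 : ℝ)) =
      (Ioi (1 : ℝ)).indicator G x := by
    intro x hx
    have hx0 : (0 : ℝ) < x := hx
    rw [Real.rpow_neg_one, abs_neg, abs_one, one_mul, smul_eq_mul]
    by_cases h1 : 1 < x
    · have h2 : x⁻¹ ∈ Iio (1 : ℝ) := inv_lt_one_of_one_lt₀ h1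
      rw [indicator_of_mem (show x ∈ Ioi (1 : ℝ) from h1), hg, indicator_of_mem h2, hF, hG]
      simp only
      have h3 : θ x⁻¹ = x ^ b * θ x := by
        rw [← hfe x hx0, one_div]
      rw [h3, Real.inv_rpow hx0.le, ← Real.rpow_neg hx0.le, hp]
      have h4 : x ^ (b - p - 2) = x ^ ((-1 : ℝ) - 1) * x ^ b * x ^ (-p) := by
        rw [← Real.rpow_add hx0, ← Real.rpow_add hx0]
        congr 1
        ring
      rw [h4]
      ring
    · have h2 : x⁻¹ ∉ Iio (1 : ℝ) := by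
        rw [mem_Iio, not_lt]
        exact (one_le_inv₀ hx0).2 (not_lt.1 h1)
      rw [indicator_of_notMem (show x ∉ Ioi (1 : ℝ) from h1), hg, indicator_of_notMem h2, mul_zero]
  have hint : IntegrableOn g (Ioi 0) := by
    rw [← integrableOn_Ioi_comp_rpow_iff g (show (-1 : ℝ) ≠ 0 by norm_num)]
    refine (integrableOn_congr_fun key measurableSet_Ioi).2 ?_
    exact ((integrable_indicator_iff hm1).2 i2).integrableOn
  have heq : ∫ y in Ioi (0 : ℝ), g y = ∫ y in Ioi (1 : ℝ), G y := by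
    rw [← integral_comp_rpow_Ioi g (show (-1 : ℝ) ≠ 0 by norm_num),
      setIntegral_congr_fun measurableSet_Ioi key, setIntegral_indicator hm1]
    congr 2
    rw [inter_eq_right]
    exact Ioi_subset_Ioi zero_le_one
  have hh : Integrable ((Ici (1 : ℝ)).indicator F) :=
    (integrable_indicator_iff measurableSet_Ici).2 ((integrableOn_Ici_iff_integrableOn_Ioi).2 i1)
  have hsum : ∀ y, F y = g y + (Ici (1 : ℝ)).indicator F y := by
    intro y
    by_cases h1 : y < 1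
    · rw [hg, indicator_of_mem (show y ∈ Iio (1 : ℝ) from h1),
        indicator_of_notMem (show y ∉ Ici (1 : ℝ) from not_le.2 h1), add_zero]
    · rw [hg, indicator_of_notMem (show y ∉ Iio (1 : ℝ) from h1),
        indicator_of_mem (show y ∈ Ici (1 : ℝ) from not_lt.1 h1), zero_add]
  calc ∫ y in Ioi (0 : ℝ), F y = ∫ y in Ioi (0 : ℝ), (g y + (Ici (1 : ℝ)).indicator F y) :=
        integral_congr_ae (Eventually.of_forall fun y => hsum y)
    _ = (∫ y in Ioi (0 : ℝ), g y) + ∫ y in Ioi (0 : ℝ), (Ici (1 : ℝ)).indicator F y :=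
        integral_add hint hh.integrableOn
    _ = (∫ y in Ioi (1 : ℝ), G y) + ∫ y in Ioi (1 : ℝ), F y := by
        rw [heq, setIntegral_indicator measurableSet_Ici]
        congr 1
        have h2 : Ioi (0 : ℝ) ∩ Ici 1 = Ici 1 := by
          rw [inter_eq_right]
          exact fun y hy => mem_Ioi.2 (lt_of_lt_of_le one_pos (mem_Ici.1 hy))
        rw [h2, integral_Ici_eq_integral_Ioi]
    _ = _ := add_comm _ _

/-- scaling -/
lemma scale (θ : ℝ → ℝ) (q : ℝ) (hq : 0 < q) (t : ℝ) (ht : 0 ≤ t) (p : ℝ) :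
    ∫ v in Ioi (t / q), θ (q * v) * v ^ p = q ^ (-(p + 1)) * ∫ y in Ioi t, θ y * y ^ p := by
  have h1 := integral_comp_mul_left_Ioi (fun y => θ y * (y / q) ^ p) (t / q) hq
  have h2 : ∀ v : ℝ, q * v / q = v := fun v => by rw [mul_comm, mul_div_assoc, div_self hq.ne', mul_one]
  have h3 : q * (t / q) = t := by rw [mul_div_assoc', h2]
  simp only [h2] at h1
  rw [h1, smul_eq_mul, h3]
  have h4 : ∀ y ∈ Ioi t, θ y * (y / q) ^ p = q ^ (-p) * (θ y * y ^ p) := by
    intro y hy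
    have hy0 : 0 ≤ y := ht.trans (le_of_lt hy)
    rw [Real.div_rpow hy0 hq.le, Real.rpow_neg hq.le]
    ring
  rw [setIntegral_congr_fun measurableSet_Ioi h4, integral_const_mul, ← mul_assoc]
  congr 1
  rw [neg_add, Real.rpow_add hq, Real.rpow_neg_one, mul_comm]

/-- integrability after scaling -/
lemma scale_int (θ : ℝ → ℝ) (q : ℝ) (hq : 0 < q) (t : ℝ) (ht : 0 ≤ t) (p : ℝ)
    (h : IntegrableOn (fun y => θ y * y ^ p) (Ioi t)) :
    IntegrableOn (fun v => θ (q * v) * v ^ p) (Ioi (t / q)) := by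
  have h1 := (integrableOn_Ioi_comp_mul_left_iff (fun y => θ y * y ^ p) (t / q) hq).2 (by
    rw [mul_div_assoc', mul_comm, mul_div_assoc, div_self hq.ne', mul_one]
    exact h)
  have h2 : ∀ v ∈ Ioi (t / q), θ (q * v) * v ^ p = q ^ (-p) * (θ (q * v) * (q * v) ^ p) := by
    intro v hv
    have hv0 : 0 ≤ v := (div_nonneg ht hq.le).trans (le_of_lt hv)
    rw [Real.mul_rpow hq.le hv0, Real.rpow_neg hq.le]
    have h3 : q ^ p ≠ 0 := (Real.rpow_pos_of_pos hq p).ne'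
    field_simp
  exact (integrableOn_congr_fun h2 measurableSet_Ioi).2 (h1.const_mul _)

lemma r_pos (φ : FD) (h : Fam φ) : 0 < φ.r := by
  obtain ⟨ε, -, h | h | h | h⟩ := h
  · rw [h]; exact Nat.succ_pos 7
  · rw [h]; exact Nat.succ_pos 3
  · rw [h]; exact Nat.one_pos
  · rw [h]; exact Nat.one_pos

lemma vt_eq (φ : FD) (d : ℕ) (hq : 0 < (φ.r : ℝ) * d) (v : ℝ) :
    vt φ d v = thg φ d ((φ.r : ℝ) * d * v) := by
  unfold vt thg
  refine tsum_congr fun n => ?_
  congr 3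
  have h1 : (φ.r : ℝ) * d ≠ 0 := hq.ne'
  rw [eq_div_iff h1]
  ring

/-- the approximate functional equation -/
theorem AFE : S_AFE := by
  intro φ hφ d hd hs δ hδ _ w hw
  have hd0 : d ≠ 0 := hs.ne_zero
  have hq : 0 < (φ.r : ℝ) * d := by
    have h1 : (0 : ℝ) < φ.r := by exact_mod_cast r_pos φ hφ
    have h2 : (0 : ℝ) < d := by exact_mod_cast Nat.pos_of_ne_zero hd0
    exact mul_pos h1 h2
  obtain ⟨hc, C, c, _, hc0, hb⟩ := Pool.Agent.H306R2.RG.LnkC.CC4 φ hφ d hd0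
  have hfe := Pool.Agent.H306R2.RG.LnkC.CC3 φ hφ d hd hs
  have hgm : gm (1 / 2 + δ + φ.a) ≠ 0 := by
    unfold gm
    have h1 : (0 : ℝ) < (1 / 2 + δ + φ.a) / 2 := by positivity
    exact (mul_pos (Real.rpow_pos_of_pos Real.pi_pos _) (Real.Gamma_pos_of_pos h1)).ne'
  set q : ℝ := (φ.r : ℝ) * d with hqd
  have hcore := core (thg φ d) hc C c hc0 hb (1 / 2 + φ.a) (xe φ δ) (xe φ (-δ)) hfe (by
    unfold xe
    ring)
  have hq0 : q ^ ((1 / 2 + δ + (φ.a : ℝ)) / 2) ≠ 0 := (Real.rpow_pos_of_pos hq _).ne'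
  have hxe : (1 / 2 + δ + (φ.a : ℝ)) / 2 - 1 = xe φ δ := rfl
  have hL : gm (1 / 2 + δ + φ.a) * LLg φ d (1 / 2 + δ) =
      q ^ (-(xe φ δ + 1)) * ∫ y in Ioi (0 : ℝ), thg φ d y * y ^ (xe φ δ) := by
    unfold LLg
    rw [hxe, ← hqd]
    have h1 : q ^ (-(xe φ δ + 1)) = (q ^ ((1 / 2 + δ + (φ.a : ℝ)) / 2))⁻¹ := by
      rw [← Real.rpow_neg hq.le]
      congr 1
      unfold xe
      ring
    rw [h1, mul_div_assoc', mul_comm (q ^ ((1 / 2 + δ + (φ.a : ℝ)) / 2)) (gm _),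
      mul_div_mul_left _ _ hgm, div_eq_inv_mul]
  have i1 := int_one (thg φ d) hc C c hc0 hb (xe φ δ)
  have hs1 := scale (thg φ d) q hq 1 zero_le_one (xe φ δ)
  have hs2 := scale (thg φ d) q hq 1 zero_le_one (xe φ (-δ))
  have hsi := scale_int (thg φ d) q hq 1 zero_le_one (xe φ δ) i1
  have hvt : ∀ v, thg φ d (q * v) = vt φ d v := fun v => (vt_eq φ d hq v).symm
  simp only [hvt] at hs1 hs2 hsi
  have hsplit := intervalIntegral.integral_interval_add_Ioi hsi
    (hsi.mono_set (Ioi_subset_Ioi hw))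
  unfold R1 R2
  rw [← hqd, hL, hcore, hs2, add_comm (∫ v in Ioi w, vt φ d v * v ^ (xe φ δ)), hsplit, hs1,
    mul_add, ← mul_assoc (q ^ (-δ))]
  congr 2
  rw [← Real.rpow_add hq]
  congr 1
  unfold xe
  ring

end Pool.Agent.Y93.TQ
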